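import Pool.Agent.V1185.GreedyPeriodic

/-!
Periods divisible by four in the greedy planar walk.
-/

namespace Pool.Agent.Results.MP_fc1ccb_an.PeriodDivisibleByFour

open Pool.Agent.V1185.GreedyWalk

/-- The negated form of Q1, with arbitrarily large periods divisible by four. -/
theorem result : ∀ B : ℕ, ∃ α : ℝ, 0 < α ∧ Irrational α ∧ ∃ z : ℂ, Admissible α z ∧
    ∃ p : ℕ, IsLeast {p | IsEventualPeriod (signs α z) p} p ∧ 4 ∣ p ∧ B ≤ p := by
  intro B
  obtain ⟨α, h1, -, h2, z, L, hL, h4, hadm, hp⟩ :=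
    Pool.Agent.V1185.GreedyPeriodic.exists_periodic (max B 1)
  have hL1 : 1 ≤ L := (le_max_right _ _).trans hL
  refine ⟨α, by linarith, h2, z, hadm, L, ⟨?_, ?_⟩, h4, (le_max_left _ _).trans hL⟩
  · exact (hp L).mpr ⟨hL1, dvd_rfl⟩
  · intro p hpp
    obtain ⟨i1, i2⟩ := (hp p).mp hpp
    exact Nat.le_of_dvd (by omega) i2

end Pool.Agent.Results.MP_fc1ccb_an.PeriodDivisibleByFour
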